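import Pool.Agent.N728.QU.Dens

set_option autoImplicit false

/-!
# The number of primes `n² - k` for almost all `k` of the form `h² + c`

Let `c ≠ 0` be an integer. For all but at most `ε H` of the integers `h ≤ H` the number of the primes `n² - k`, `n ≤ N`,
with `k = h² + c`, is `(C / 2 + o(1)) (N - h) / log H` for `h ≤ N ≤ K H` (for `n < h` the number `n² - k` is at most
`|c|`), where `C = ∏_p (1 - ω(p)/p) (1 - 1/p)⁻¹`; the factor at an odd prime `p` is `1 - (k/p) / (p - 1)`, the factor at
`2` is `1`. For `c = 2` and `h = 0` this is the formula of the problem for the primes `n² - 2`.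

Proof (`Agent/N728/QU`): `n² - k = u v - c` with `u = n - h`, `v = u + 2 h` (and `-c - u v` with `u = h - n`,
`v = - u + 2 h` for `n < h`). Bilinear sums over `-c ± u v` with an arbitrary bounded function of `v ∓ u` do not change if a
divisor of `u v`, composed of primes of a suitable range, is moved from `u` to `v`; by the multiplication table
phenomenon of Erdős few multiplicative windows contain such a divisor, and the off-diagonal terms are bounded by two
applications of the Cauchy-Schwarz inequality and the fundamental lemma of the sieve (functions with mean zero on the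
cells (residue class and block)). For the functions constant on the cells the range is shifted, by moving divisors again,
to `u ≤ v / (log v)^C`, where the theorem of Bombieri and Vinogradov at the sharp level applies. The constants are
controlled by the large sieve for quadratic characters.
-/

namespace Pool.Agent.Results.MP_0b748d_nt.ThinFamilyExplicit

open Finset Filter Topology

/-- `ω(p)`, the number of the solutions of `n² ≡ k` modulo `p`. -/
def omega (k : ℤ) (p : ℕ) : ℕ := ((range p).filter (fun n : ℕ => (p : ℤ) ∣ (n : ℤ) ^ 2 - k)).card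

/-- The partial products `∏_{p ≤ z} (1 - ω(p)/p) (1 - 1/p)⁻¹` of the constant `C`. -/
noncomputable def partialProduct (k : ℤ) (z : ℕ) : ℝ :=
  ∏ p ∈ (Ioc 0 z).filter Nat.Prime, (1 - (omega k p : ℝ) / p) / (1 - 1 / (p : ℝ))

/-- The number of the `1 ≤ n ≤ N` with `n² - k` a (positive) prime. -/
def primeCount (k : ℤ) (N : ℕ) : ℕ := ((Icc 1 N).filter (fun n : ℕ => ((n : ℤ) ^ 2 - k).toNat.Prime)).card

/-- The conclusion for `k = h² + c`: the product over all primes converges to a number `C ≥ κ`, and the number of primes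
`n² - k`, `n ≤ N`, is `(C / 2) (N - h) / log H` (or `0` for `N ≤ h`) up to `δ (1 + C) H / log H`, for all `N ≤ K H`. -/
def Good (κ δ : ℝ) (K H h : ℕ) (k : ℤ) : Prop :=
  ∃ C : ℝ, Tendsto (partialProduct k) atTop (𝓝 C) ∧ κ ≤ C ∧
    ∀ N : ℕ, N ≤ K * H →
      |(primeCount k N : ℝ) - C / 2 * (max ((N : ℝ) - h) 0 / Real.log H)| ≤ δ * (1 + C) * (H / Real.log H)

open Classical in
/-- The number of the `1 ≤ h ≤ H` for which the conclusion fails. -/
noncomputable def exceptions (c : ℤ) (κ δ : ℝ) (K H : ℕ) : ℕ :=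
  ((Icc 1 H).filter (fun h : ℕ => ¬ Good κ δ K H h ((h : ℤ) ^ 2 + c))).card

/-- **Theorem.** -/
theorem result (c : ℤ) (hc : c ≠ 0) :
    ∀ ε : ℝ, 0 < ε → ∃ κ : ℝ, 0 < κ ∧ ∀ (δ : ℝ) (K : ℕ), 0 < δ → ∃ H₀ : ℕ, ∀ H : ℕ, H₀ ≤ H →
      (exceptions c κ δ K H : ℝ) ≤ ε * H := by
  classical
  intro ε hε
  obtain ⟨κ, hκ, h1⟩ := Pool.Agent.N728.QU.dens 0 (-c) (neg_ne_zero.2 hc) (fun h => by norm_num at h) ε hε
  refine ⟨κ, hκ, fun δ K hδ => ?_⟩
  obtain ⟨H₀, h2⟩ := h1 δ K hδ
  refine ⟨H₀, fun H hH => ?_⟩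
  obtain ⟨S, hS1, hS2⟩ := h2 H hH
  refine le_trans ?_ hS1
  unfold exceptions
  rw [Nat.cast_le]
  apply card_le_card
  intro h hh
  rw [mem_filter] at hh
  by_contra hcon
  refine hh.2 ?_
  obtain ⟨C, hC1, hC2, hC3⟩ := hS2 h hh.1 hcon
  have e1 : ∀ m : ℕ, Pool.Agent.N728.QU.dval 0 (-c - ((h : ℤ) ^ 2 + ((0 : ℕ) : ℤ) * h)) m =
      (m : ℤ) ^ 2 - ((h : ℤ) ^ 2 + c) := by
    intro m
    unfold Pool.Agent.N728.QU.dval
    push_cast
    ring
  refine ⟨C, ?_, hC2, fun N hN => ?_⟩
  · have e3 : partialProduct ((h : ℤ) ^ 2 + c) =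
        Pool.Agent.N728.QU.dser 0 (-c - ((h : ℤ) ^ 2 + ((0 : ℕ) : ℤ) * h)) := by
      funext z
      unfold partialProduct omega Pool.Agent.N728.QU.dser Pool.Agent.N728.QU.dom
      simp only [e1]
    rw [e3]
    exact hC1
  · have h5 := hC3 N hN
    unfold Pool.Agent.N728.QU.dcnt at h5
    simp only [e1] at h5
    exact h5

end Pool.Agent.Results.MP_0b748d_nt.ThinFamilyExplicit
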