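import Mathlib
import Pool.Agent.N791.U.F9

/-!
# Primes `n² - k` for almost all `k ≤ K`, `N^(7/10+ε) ≤ K ≤ N`

The family of the polynomials `n² - k`, and more generally of `a n² + b n - k` with fixed `a > 0` and `b`, which
have positive discriminants. For every `K` with `N^(7/10 + ε) ≤ K ≤ N` and almost all `k ≤ K` there are at
least `3/4 - η` times as many primes `a n² + b n - k`, `n ≤ N`, as Hardy and Littlewood predict, and the same
holds in all intervals `u < n ≤ v ≤ N`. In particular for 100 percent of the `k ≤ K` which are not squares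
there are primes `n² - k` with `n ≤ N`, where `K` may be as small as `N^(7/10 + ε)`. The numbers `n² - k` form a
thin set of integers: `K` is much smaller than the distances `2 n` of the squares, and the circle method
for averages over `k` (also under the generalized Riemann hypothesis) needs `K ≥ N^(1 + ε)`.

Proof. With `n = m + s`, `s² ≈ 2 K`, one has `a n² + b n - k = a m² + b' m + c'` with `b' = b + 2 a s` and
`1 ≤ c' = a s² + b s - k ≤ 3 a K`, so that negative constant terms become positive at the price of a linear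
coefficient `b'` which is not bounded, `b'² ≤ 5 a · 3 a K`. For the rough values without divisor near `N` the
sum of `μ(d)` over the divisors `d ≤ U = N^(4/5 - e)` is `1` for a prime, `-2` for a product of three primes
in `(N^(2/5 + e), N^(4/5 + 2 e)]` and `0` otherwise, which gives the primes minus twice these products as type I and
type II sums; the latter, `j l = a m² + b' m + c'`, `K j ≥ N^(3/2 + ε)`, are estimated by Cauchy's inequality over
`c'`, `j` and the roots modulo `j` and a double large sieve over the frequencies and the cofactors jointly, and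
everything is done uniformly for `b'² ≤ Λ K`.
-/

set_option autoImplicit false

namespace Pool.Agent.Results.MP_0b748d_nt.ThinNegativeLowerBound

open Finset Filter Topology

/-- the triple `(a, b, c)` is admissible: `a > 0`, `gcd(a, b, c) = 1`, the numbers `a + b` and `c` are
not both even, and the discriminant is not a square (for `a = 1`, `b = 0`: `-c` is not a square) -/
def Admissible (a b c : ℤ) : Prop :=
  0 < a ∧ (∀ d : ℤ, d ∣ a → d ∣ b → d ∣ c → IsUnit d) ∧ ¬ ((2 : ℤ) ∣ a + b ∧ (2 : ℤ) ∣ c) ∧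
    ¬ IsSquare (b ^ 2 - 4 * a * c)

/-- the number of `u < m ≤ v` for which `a m² + b m + c` is a (positive) prime -/
def primeCount (a b c : ℤ) (u v : ℕ) : ℕ :=
  #((Ioc u v).filter (fun m : ℕ => (a * (m : ℤ) ^ 2 + b * m + c).toNat.Prime))

/-- `ε = 2` if `a + b` is even and `ε = 1` if `a + b` is odd -/
noncomputable def eps (a b : ℤ) : ℝ := if (2 : ℤ) ∣ a + b then 2 else 1

/-- the product `∏_{p > 2, p ∣ gcd(a, b)} p / (p - 1)` -/
noncomputable def gcdProd (a b : ℤ) : ℝ :=
  ∏ p ∈ (Int.gcd a b).primeFactors.filter (fun p => 2 < p), (p : ℝ) / (p - 1)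

/-- the product `∏_{2 < p ≤ z, p ∤ a} (1 - (D / p) / (p - 1))`, where `D = b² - 4 a c`; for `a = 1`, `b = 0`, `c = -k` the
symbol `(D / p)` is `(k / p)` -/
noncomputable def partialC (a b c : ℤ) (z : ℕ) : ℝ :=
  ∏ p ∈ (Icc 3 z).filter (fun p : ℕ => p.Prime ∧ ¬ (p : ℤ) ∣ a),
    (1 - (jacobiSym (b ^ 2 - 4 * a * c) p : ℝ) / (p - 1))

/-- the sum of `1 / log |a m² + b m + c|` over the `u < m ≤ v` with `|a m² + b m + c| ≥ 2` -/
noncomputable def logSum (a b c : ℤ) (u v : ℕ) : ℝ :=
  ∑ m ∈ (Ioc u v).filter (fun m : ℕ => 2 ≤ |a * (m : ℤ) ^ 2 + b * m + c|),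
    1 / Real.log |(a : ℝ) * m ^ 2 + b * m + c|

lemma logSum_eq (a b c : ℤ) (u v : ℕ) :
    logSum a b c u v = ∑ m ∈ Ioc u v, 1 / Real.log ((a : ℝ) * m ^ 2 + b * m + c) := by
  unfold logSum
  rw [sum_filter]
  refine sum_congr rfl fun n _ => ?_
  have e : ((a * (n : ℤ) ^ 2 + b * n + c : ℤ) : ℝ) = (a : ℝ) * n ^ 2 + b * n + c := by push_cast; ring
  split_ifs with h
  · rw [Real.log_abs]
  · rw [← e]
    have h' : a * (n : ℤ) ^ 2 + b * n + c = 0 ∨ a * (n : ℤ) ^ 2 + b * n + c = 1 ∨ a * (n : ℤ) ^ 2 + b * n + c = -1 := by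
      rw [not_le] at h
      have := abs_lt.1 h
      omega
    rcases h' with h | h | h <;> rw [h] <;> simp

/-- **A lower bound for the number of the primes `a n² + b n - k`, for almost all `k ≤ K`, `N^(7/10+ε) ≤ K ≤ N`.** Let
`a > 0`, `b`, `ε > 0` and `η > 0` be fixed. There is `θ > 0` such that for `N ≥ N0` and every `K` with
`N^(7/10 + ε) ≤ K ≤ N`, all but at most `η K` of the `1 ≤ k ≤ K` have the following property: if `(a, b, -k)` is
admissible, the product `C(a, b, -k)` converges to a number `S > 0` with `M = ε S ∏_{p > 2, p ∣ gcd(a, b)} p / (p - 1) ≥ θ`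
(here `ε` is `eps a b`), and for all `u ≤ v ≤ N` the number of `u < m ≤ v` with `a m² + b m - k` prime is at least
`(3/4) M ∑_{u < m ≤ v} 1 / log |a m² + b m - k| - η M N / log N`. For `a = 1`, `b = 0` these are the polynomials
`n² - k` with `k` not a square, and `M` is the product of `1 - (k / p) / (p - 1)` over the odd primes `p`. -/
theorem result (a : ℤ) (ha : 0 < a) (b : ℤ) (ε η : ℝ) (hε : 0 < ε) (hη : 0 < η) :
    ∃ θ : ℝ, 0 < θ ∧ ∃ N0 : ℕ, ∀ N : ℕ, N0 ≤ N → ∀ K : ℕ, (N : ℝ) ^ (7 / 10 + ε) ≤ K → K ≤ N →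
    ∃ Ex ⊆ Icc 1 K, (#Ex : ℝ) ≤ η * K ∧ ∀ k ∈ Icc 1 K, k ∉ Ex → Admissible a b (-(k : ℤ)) →
      ∃ S : ℝ, 0 < S ∧ Tendsto (fun z => partialC a b (-(k : ℤ)) z) atTop (𝓝 S) ∧
        θ ≤ eps a b * S * gcdProd a b ∧
        ∀ u v : ℕ, u ≤ v → v ≤ N →
          3 / 4 * (eps a b * S * gcdProd a b * logSum a b (-(k : ℤ)) u v) -
            η * (eps a b * S * gcdProd a b * N / Real.log N) ≤ (primeCount a b (-(k : ℤ)) u v : ℝ) := by
  obtain ⟨ε0, hε0⟩ : ∃ ε0 : ℝ, ε0 = min ε (1 / 6) := ⟨_, rfl⟩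
  have h1 : 0 < ε0 := by rw [hε0]; exact lt_min hε (by norm_num)
  have h2 : ε0 ≤ ε := by rw [hε0]; exact min_le_left _ _
  have h3 : ε0 ≤ 1 / 6 := by rw [hε0]; exact min_le_right _ _
  obtain ⟨θ, hθ, x0, h⟩ := Pool.Agent.N791.U.neg_t9 a ha b ε0 η h1 (by linarith) hη
  refine ⟨θ, hθ, x0 + 1, fun N hN K hK1 hK2 => ?_⟩
  have hN1 : (1 : ℝ) ≤ N := by exact_mod_cast (by omega : 1 ≤ N)
  obtain ⟨Ex, k1, k2, k3⟩ := h N (by omega) K
    ((Real.rpow_le_rpow_of_exponent_le hN1 (by linarith)).trans hK1) hK2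
  refine ⟨Ex, k1, k2, fun k hk hkE hadm => ?_⟩
  obtain ⟨S, m1, m2, m3, m4⟩ := k3 k hk hkE hadm
  refine ⟨S, m1, m2, m3, fun u v huv hvN => ?_⟩
  rw [logSum_eq]
  exact m4 u v huv hvN

end Pool.Agent.Results.MP_0b748d_nt.ThinNegativeLowerBound
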