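import Mathlib
import Pool.Agent.N791.U.E2N

/-!
# Products of two primes `n² - k = p q` for almost all `k ≤ K`, `N^(1/2+ε) ≤ K ≤ N`

The family of the polynomials `n² - k`, and more generally of `a n² + b n - k` with fixed `a > 0` and `b`, which have
positive discriminants. For every `K` with `N^(1/2 + ε) ≤ K ≤ N` and all `k ≤ K` except at most `K / (log N)^A` the
number of the `n` in an interval `(u, v]`, `N / R ≤ u ≤ v ≤ N`, for which `a n² + b n - k = p q` with primes `p`, `q`,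
`y₁ < p ≤ y₂`, is given by the formula which the heuristics of Hardy and Littlewood predict, with the full
constant and with an error `N / (log N)^A`, for all `y₁ ≤ y₂` between `N^(3/2 + ε) / K` and `N^(1 - ε)`. So `K` may be
nearly as small as the square root of `N`; the numbers `n² - k` form a very thin set of integers, and the circle
method for averages over `k` (also under the generalized Riemann hypothesis) needs `K ≥ N^(1 + ε)`.

Proof. With `n = m + s`, `s² ≈ 2 K`, one has `a n² + b n - k = a m² + b' m + c'` with `b' = b + 2 a s` and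
`1 ≤ c' = a s² + b s - k ≤ 3 a K`, so that negative constant terms become positive at the price of a linear
coefficient `b'` which is not bounded, `b'² ≤ 5 a · 3 a K`. The bilinear sums `p q = a m² + b' m + c'`,
`K p ≥ N^(3/2 + ε)`, are estimated by Cauchy's inequality over `c'`, `p` and the roots modulo `p` and a double large
sieve over the frequencies and the cofactors jointly, and everything is done uniformly for `b'² ≤ Λ K`: in the
expansion of the values near the diagonal the term `b'² / (4 a)` only moves the windows of the Fourier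
expansion.
-/

set_option autoImplicit false

namespace Pool.Agent.Results.MP_0b748d_nt.TwoPrimesNegative

open Finset Filter Topology

/-- the triple `(a, b, c)` is admissible: `a > 0`, `gcd(a, b, c) = 1`, the numbers `a + b` and `c` are
not both even, and the discriminant is not a square (for `a = 1`, `b = 0`: `-c` is not a square) -/
def Admissible (a b c : ℤ) : Prop :=
  0 < a ∧ (∀ d : ℤ, d ∣ a → d ∣ b → d ∣ c → IsUnit d) ∧ ¬ ((2 : ℤ) ∣ a + b ∧ (2 : ℤ) ∣ c) ∧
    ¬ IsSquare (b ^ 2 - 4 * a * c)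

open Classical in
/-- the number of `u < m ≤ v` for which `a m² + b m + c = p q` with primes `p`, `q` and `y₁ < p ≤ y₂` -/
noncomputable def twoPrimeCount (a b c : ℤ) (u v y₁ y₂ : ℕ) : ℕ :=
  #((Ioc u v).filter (fun m : ℕ => ∃ p q : ℕ, p.Prime ∧ q.Prime ∧ y₁ < p ∧ p ≤ y₂ ∧
    a * (m : ℤ) ^ 2 + b * m + c = (p : ℤ) * q))

/-- `ε = 2` if `a + b` is even and `ε = 1` if `a + b` is odd -/
noncomputable def eps (a b : ℤ) : ℝ := if (2 : ℤ) ∣ a + b then 2 else 1

/-- the product `∏_{p > 2, p ∣ gcd(a, b)} p / (p - 1)` -/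
noncomputable def gcdProd (a b : ℤ) : ℝ :=
  ∏ p ∈ (Int.gcd a b).primeFactors.filter (fun p => 2 < p), (p : ℝ) / (p - 1)

/-- the product `∏_{2 < p ≤ z, p ∤ a} (1 - (D / p) / (p - 1))`, where `D = b² - 4 a c`; for `a = 1`, `b = 0`, `c = -k` the
symbol `(D / p)` is `(k / p)` -/
noncomputable def partialC (a b c : ℤ) (z : ℕ) : ℝ :=
  ∏ p ∈ (Icc 3 z).filter (fun p : ℕ => p.Prime ∧ ¬ (p : ℤ) ∣ a),
    (1 - (jacobiSym (b ^ 2 - 4 * a * c) p : ℝ) / (p - 1))

/-- **Products of two primes `a m² + b m - k = p q` for almost all `k ≤ K`, `N^(1/2+ε) ≤ K ≤ N`.** Let `a > 0`, `b`,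
`ε > 0`, `R` and `A` be fixed. For `N ≥ N0` and every `K` with `N^(1/2 + ε) ≤ K ≤ N`, all but at most
`K / (log N)^A` of the `k ≤ K` have the following property: if `(a, b, -k)` is admissible, the product of
`1 - (D / p) / (p - 1)` over the odd primes `p ∤ a` (in increasing order) converges to a number `S > 0` and, with
`M = eps S gcdProd`, for all `N / R ≤ u ≤ v ≤ N` and all `y₁ ≤ y₂ ≤ N^(1 - ε)` with `N^(3/2 + ε) ≤ K y₁` the number of
`u < m ≤ v` for which `a m² + b m - k = p q` with primes `p`, `q`, `y₁ < p ≤ y₂`, differs from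
`M ∑_{u < m ≤ v} ∑_{y₁ < p ≤ y₂} 1 / (p log ((a m² + b m - k) / p))` by at most `N / (log N)^A`. -/
theorem result (a : ℤ) (ha : 0 < a) (b : ℤ) (ε : ℝ) (hε : 0 < ε) (R A : ℕ) :
    ∃ N0 : ℕ, ∀ N : ℕ, N0 ≤ N → ∀ K : ℕ, (N : ℝ) ^ (1 / 2 + ε) ≤ K → K ≤ N →
    ∃ Ex ⊆ Icc 1 K, (#Ex : ℝ) ≤ K / Real.log N ^ A ∧
      ∀ k ∈ Icc 1 K, k ∉ Ex → Admissible a b (-(k : ℤ)) →
      ∃ S : ℝ, 0 < S ∧ Tendsto (fun z => partialC a b (-(k : ℤ)) z) atTop (𝓝 S) ∧
        ∀ u v y₁ y₂ : ℕ, N ≤ R * u → u ≤ v → v ≤ N → (N : ℝ) ^ (3 / 2 + ε) ≤ (K : ℝ) * y₁ → y₁ ≤ y₂ →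
          (y₂ : ℝ) ≤ (N : ℝ) ^ (1 - ε) →
          |(twoPrimeCount a b (-(k : ℤ)) u v y₁ y₂ : ℝ) -
            eps a b * S * gcdProd a b * ∑ m ∈ Ioc u v, ∑ p ∈ (Ioc y₁ y₂).filter Nat.Prime,
              1 / ((p : ℝ) * Real.log (((a : ℝ) * m ^ 2 + b * m - k) / p))| ≤ N / Real.log N ^ A := by
  obtain ⟨N0, h⟩ := Pool.Agent.N791.U.neg_e2 a ha b ε hε R A
  refine ⟨N0, fun N hN K hK1 hK2 => ?_⟩
  obtain ⟨Ex, hE1, hE2, hE3⟩ := h N hN K hK1 hK2
  refine ⟨Ex, hE1, hE2, fun k hk hkE hadm => ?_⟩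
  obtain ⟨S, hS, hSt, hb⟩ := hE3 k hk hkE hadm
  refine ⟨S, hS, hSt, fun u v y₁ y₂ hxu huv hvx hy1 hy12 hy2 => ?_⟩
  have h4 := hb u v y₁ y₂ hxu huv hvx hy1 hy12 hy2
  have e : ∑ m ∈ Ioc u v, ∑ p ∈ (Ioc y₁ y₂).filter Nat.Prime,
      1 / ((p : ℝ) * Real.log (((a : ℝ) * m ^ 2 + b * m + (-(k : ℤ) : ℤ)) / p)) =
      ∑ m ∈ Ioc u v, ∑ p ∈ (Ioc y₁ y₂).filter Nat.Prime,
        1 / ((p : ℝ) * Real.log (((a : ℝ) * m ^ 2 + b * m - k) / p)) := by
    refine sum_congr rfl fun m _ => sum_congr rfl fun p _ => ?_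
    push_cast
    rw [← sub_eq_add_neg]
  rw [← e]
  exact h4

end Pool.Agent.Results.MP_0b748d_nt.TwoPrimesNegative
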