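import Pool.Agent.N39.RW.Quad3Win

/-!
# Values `n ^ 2 - 2` with at most three prime factors in all windows around most points, and between powers

The question asks for the number of the `n ≤ N` for which `n ^ 2 - 2` is prime. For every integer `a` such that `-a`
is not a square, for instance `a = -2`, we consider the `n` for which `n ^ 2 + a` has at most three prime factors, all
of them larger than a fixed power of `n`. A positive proportion of the integers `t` is regular: ALL windows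
`(u, v]` around `t` of a length between `K log t` and `t` contain the expected number of such `n`, up to constant
factors. Moreover a positive proportion of the intervals `(m ^ s, (m + 1) ^ s)` contains at least `ν m ^ (s - 1) / log m`
of them, for every exponent `s ≥ 2`.
-/

set_option autoImplicit false

open Finset Filter

namespace Pool.Agent.Results.MP_0b748d_nt.WindowsThreePrimeFactors

/-- `n ^ 2 + a` has at most three prime factors, counted with multiplicity, and all of them are larger than `z` -/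
def Almost (a : ℤ) (z : ℝ) (n : ℕ) : Prop :=
  ((n : ℤ) ^ 2 + a).natAbs.primeFactorsList.length ≤ 3 ∧
    ∀ p : ℕ, p.Prime → (p : ℤ) ∣ (n : ℤ) ^ 2 + a → z < (p : ℝ)

/-- the number of the `n` with `u < n ≤ v` and `Almost a z n` -/
noncomputable def count (a : ℤ) (z : ℝ) (u v : ℕ) : ℕ := Set.ncard {n : ℕ | u < n ∧ n ≤ v ∧ Almost a z n}

/-- `t` is regular: all windows around `t` of length between `K log t` and `t` contain the right number of such
integers, with `z = t ^ (1 / 8)` -/
def Regular (a : ℤ) (c₁ c₂ K : ℝ) (t : ℕ) : Prop :=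
  ∀ u v : ℕ, u ≤ t → t ≤ v → K * Real.log t ≤ (v : ℝ) - u → (v : ℝ) - u ≤ t →
    c₁ * ((v : ℝ) - u) / Real.log t ≤ (count a ((t : ℝ) ^ (1 / 8 : ℝ)) u v : ℝ) ∧
      (count a ((t : ℝ) ^ (1 / 8 : ℝ)) u v : ℝ) ≤ c₂ * ((v : ℝ) - u) / Real.log t

/-- Let `-a` be no square, for instance `a = -2`. There are `c₁, c₂, K > 0` such that a positive proportion of all
integers is regular, and for every `s ≥ 2` there is `ν > 0` such that for all large `N` at least `ν N` of the integers
`m ∈ [N, 2 N)` have the following properties: at least `ν m ^ (s - 1)` of the integers `t` with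
`m ^ s < t < (m + 1) ^ s` are regular, and there are at least `ν m ^ (s - 1) / log m` integers `n` with
`m ^ s < n < (m + 1) ^ s` such that `n ^ 2 + a` has at most three prime factors, all larger than `m ^ (s / 8)`. -/
theorem result (a : ℤ) (ha : ¬ IsSquare (-a)) : ∃ c₁ c₂ K : ℝ, 0 < c₁ ∧ 0 < c₂ ∧ 0 < K ∧
    (∃ μ : ℝ, 0 < μ ∧ ∀ᶠ x : ℕ in atTop, μ * x ≤ (Set.ncard {t : ℕ | t ≤ x ∧ Regular a c₁ c₂ K t} : ℝ)) ∧
    ∀ s : ℕ, 2 ≤ s → ∃ ν : ℝ, 0 < ν ∧ ∀ᶠ N : ℕ in atTop, ν * N ≤
      (Set.ncard {m : ℕ | N ≤ m ∧ m < 2 * N ∧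
        ν * (m : ℝ) ^ (s - 1) ≤ (Set.ncard {t : ℕ | m ^ s < t ∧ t < (m + 1) ^ s ∧ Regular a c₁ c₂ K t} : ℝ) ∧
        ν * (m : ℝ) ^ (s - 1) / Real.log m ≤
          (Set.ncard {n : ℕ | m ^ s < n ∧ n < (m + 1) ^ s ∧ Almost a ((m : ℝ) ^ ((s : ℝ) / 8)) n} : ℝ)} : ℝ) := by
  classical
  obtain ⟨c₁, c₂, K, hc₁, hc₂, hK, huse⟩ := Pool.Agent.N39.RW.winQ a ha
  refine ⟨c₁, c₂, K, hc₁, hc₂, hK, ?_⟩
  obtain ⟨g1, g2⟩ := huse (Regular a c₁ c₂ K) (by
    filter_upwards with t ht u v hu hv h1 h2
    obtain ⟨h3, h4⟩ := ht u v hu hv h1 h2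
    refine ⟨h3.trans ?_, le_trans ?_ h4⟩
    · unfold count
      rw [← Set.ncard_coe_finset, Nat.cast_le]
      refine Set.ncard_le_ncard ?_ ((Set.finite_Iic v).subset fun p hp => hp.2.1)
      intro n hn
      rw [mem_coe, mem_filter, mem_Ioc] at hn
      exact ⟨hn.1.1, hn.1.2, hn.2⟩
    · unfold count
      rw [← Set.ncard_coe_finset, Nat.cast_le]
      refine Set.ncard_le_ncard ?_ (Finset.finite_toSet _)
      rintro n ⟨k1, k2, k3⟩
      rw [mem_coe, mem_filter, mem_Ioc]
      exact ⟨⟨k1, k2⟩, k3.2⟩)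
  exact ⟨g1, g2⟩

end Pool.Agent.Results.MP_0b748d_nt.WindowsThreePrimeFactors
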